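import Mathlib
import Pool.Agent.X57.PTD

/-!
# Graphs of maximum degree 4 have optimal tree-decompositions with bags of treewidth at most 18

This answers Q1 of MP_888b70_co: yes, with `c = 18`.

Proof. Among the tree-decompositions of width `tw(G)` take one, `D`, which minimises the number of
pairs of vertices sharing a bag.

(a) If a bag `B` is inclusion-maximal among the bags, then no component of `G - B` is adjacent to
all of `B` (Helly property of subtrees).
(b) Any two distinct nonadjacent `u, v ∈ B` have a common component of `G - B` adjacent to both: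
otherwise split `D` at `B` (two copies of the tree joined at the node of `B`, one keeping the
components adjacent to `u`, the other one the remaining components) to separate `u` from `v`
without enlarging bags, which contradicts the choice of `D`.

Let `B` be a maximal bag with at least 16 vertices and `U` the set of `w ∈ B` with at least three
neighbours in `B`. Each `w ∈ U` has by (b) exactly one neighbour `o(w)` outside `B`, and the
component `C(w)` of `o(w)` is adjacent to all vertices of `B` except for at most three neighbours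
of `w`. By (a) it misses some `b ∈ B`, and every `w' ∈ U` with `C(w') = C(w)` is adjacent to `b`, so
that each component is used by at most 4 vertices of `U`. If there were five such components, some
`v ∈ B` would be adjacent to all of them and have degree at least 5. So `|U| ≤ 16`; the rest of `B`
induces a graph of maximum degree at most 2, which has treewidth at most 2, hence
`tw(G[B]) ≤ 18`.
-/

set_option autoImplicit false

namespace Pool.Agent.Results.MP_888b70_co.OptimalDegreeFour

open SimpleGraph Finset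
open Pool.Agent.X57

/-- A tree-decomposition of `G`: a finite tree `T` and a bag `bag x` for each node `x`, such that
every edge of `G` has both ends in some bag, and for each vertex `v` the nodes whose bags contain
`v` induce a (nonempty) subtree. -/
structure TreeDecomp {V : Type} (G : SimpleGraph V) where
  ι : Type
  fin : Finite ι
  T : SimpleGraph ι
  isTree : T.IsTree
  bag : ι → Finset V
  edge : ∀ u v, G.Adj u v → ∃ x, u ∈ bag x ∧ v ∈ bag x
  conn : ∀ v, (T.induce {x | v ∈ bag x}).Connected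

/-- The width is at most `k`: every bag has at most `k + 1` vertices. -/
def TreeDecomp.WidthLE {V : Type} {G : SimpleGraph V} (D : TreeDecomp G) (k : ℕ) : Prop :=
  ∀ x, (D.bag x).card ≤ k + 1

/-- The treewidth of `G`: the least width of a tree-decomposition. -/
noncomputable def treewidth {V : Type} (G : SimpleGraph V) : ℕ :=
  sInf {k | ∃ D : TreeDecomp G, D.WidthLE k}

/-! ### Joining two copies of a tree -/

section join

variable {ι : Type} (T : SimpleGraph ι) (t : ι)

/-- two copies of `T` with the two copies of `t` joined by an edge -/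
def dbl : SimpleGraph (ι ⊕ ι) where
  Adj x y := match x, y with
    | Sum.inl a, Sum.inl b => T.Adj a b
    | Sum.inr a, Sum.inr b => T.Adj a b
    | Sum.inl a, Sum.inr b => a = t ∧ b = t
    | Sum.inr a, Sum.inl b => a = t ∧ b = t
  symm := ⟨fun x y h => by
    rcases x with a | a <;> rcases y with b | b
    · exact h.symm
    · exact ⟨h.2, h.1⟩
    · exact ⟨h.2, h.1⟩
    · exact h.symm⟩
  loopless := ⟨fun x h => by
    rcases x with a | a
    · exact T.loopless.irrefl a h
    · exact T.loopless.irrefl a h⟩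

lemma unique_lower {T : SimpleGraph ι} (hT : T.IsTree) {t v u w : ι} (hu : T.Adj v u)
    (hw : T.Adj v w) (hu' : T.dist t u < T.dist t v) (hw' : T.dist t w < T.dist t v) : u = w := by
  classical
  have key : ∀ u, T.Adj v u → T.dist t u < T.dist t v →
      ∀ p : T.Walk v t, p.IsPath → u = p.snd := by
    intro u hu hu' p hp
    apply hT.isAcyclic.eq_snd_of_adj_start hp hu
    obtain ⟨q, hq, hq'⟩ := (hT.connected u t).exists_path_of_dist
    have hv : v ∉ q.support := by
      intro hv
      have h1 : T.dist v t ≤ (q.dropUntil v hv).length := dist_le _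
      have h2 : q.length = (q.takeUntil v hv).length + (q.dropUntil v hv).length := by
        conv_lhs => rw [← q.take_spec hv]
        rw [Walk.length_append]
      rw [dist_comm] at hu'
      rw [dist_comm (u := t)] at hu'
      omega
    have h3 : (Walk.cons hu q).IsPath := by
      rw [Walk.cons_isPath_iff]
      exact ⟨hq, hv⟩
    have h4 : p = Walk.cons hu q := by
      have := (hT.isAcyclic.subsingleton_path v t).elim ⟨p, hp⟩ ⟨_, h3⟩
      exact congrArg Subtype.val this
    rw [h4, Walk.support_cons]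
    exact List.mem_cons_of_mem _ q.start_mem_support
  obtain ⟨p, hp, _⟩ := (hT.connected v t).exists_path_of_dist
  rw [key u hu hu' p hp, key w hw hw' p hp]

lemma dbl_isTree {T : SimpleGraph ι} (hT : T.IsTree) (t : ι) : (dbl T t).IsTree := by
  have hl : ∀ a b, T.Reachable a b → (dbl T t).Reachable (Sum.inl a) (Sum.inl b) := fun a b h =>
    h.map (⟨Sum.inl, fun h => h⟩ : T →g dbl T t)
  have hr : ∀ a b, T.Reachable a b → (dbl T t).Reachable (Sum.inr a) (Sum.inr b) := fun a b h =>
    h.map (⟨Sum.inr, fun h => h⟩ : T →g dbl T t)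
  have hm : (dbl T t).Reachable (Sum.inl t) (Sum.inr t) := Adj.reachable ⟨rfl, rfl⟩
  constructor
  · have : Nonempty (ι ⊕ ι) := ⟨Sum.inl t⟩
    have key : ∀ x, (dbl T t).Reachable x (Sum.inl t) := by
      rintro (a | a)
      · exact hl a t (hT.connected a t)
      · exact (hr a t (hT.connected a t)).trans hm.symm
    exact ⟨fun x y => (key x).trans (key y).symm⟩
  · apply acyclic_of_height (dbl T t)
      (fun x => match x with
        | Sum.inl a => T.dist t a
        | Sum.inr a => T.dist t a + 1)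
    · rintro (a | a) (b | b) h
      · exact hT.dist_ne_of_adj t h
      · obtain ⟨rfl, rfl⟩ := h
        simp
      · obtain ⟨rfl, rfl⟩ := h
        simp
      · have := hT.dist_ne_of_adj t h
        simpa using this
    · rintro (v | v) (a | a) (b | b) h1 h2 h3 h4
      · exact congrArg Sum.inl (unique_lower hT h1 h2 h3 h4)
      · obtain ⟨rfl, rfl⟩ := h2
        simp at h4
      · obtain ⟨rfl, rfl⟩ := h1
        simp at h3
      · obtain ⟨rfl, rfl⟩ := h1
        simp at h3
      · obtain ⟨rfl, rfl⟩ := h1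
        obtain ⟨_, rfl⟩ := h2
        rfl
      · obtain ⟨rfl, rfl⟩ := h1
        simp at h4
      · obtain ⟨rfl, rfl⟩ := h2
        simp at h3
      · simp only [add_lt_add_iff_right] at h3 h4
        exact congrArg Sum.inr (unique_lower hT h1 h2 h3 h4)

end join

/-! ### Components outside a bag -/

section comp

variable {V : Type} (G : SimpleGraph V) (B : Finset V)

/-- `x` and `y` are connected outside `B` -/
def conn (x y : V) : Prop := Relation.ReflTransGen (fun a b => G.Adj a b ∧ a ∉ B ∧ b ∉ B) x y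

/-- `b` is a neighbour of the component of `x` outside `B` -/
def NB (x b : V) : Prop := ∃ y, conn G B x y ∧ y ∉ B ∧ G.Adj y b

variable {G B}

lemma conn.symm {x y : V} (h : conn G B x y) : conn G B y x := by
  unfold conn at *
  induction h with
  | refl => exact Relation.ReflTransGen.refl
  | tail _ h ih => exact Relation.ReflTransGen.head ⟨h.1.symm, h.2.2, h.2.1⟩ ih

lemma conn.trans {x y z : V} (h : conn G B x y) (h' : conn G B y z) : conn G B x z :=
  Relation.ReflTransGen.trans h h'

lemma conn.notMem {x y : V} (h : conn G B x y) (hx : x ∉ B) : y ∉ B := by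
  unfold conn at h
  induction h with
  | refl => exact hx
  | tail _ h _ => exact h.2.2

lemma conn.of_adj {x y : V} (h : G.Adj x y) (hx : x ∉ B) (hy : y ∉ B) : conn G B x y :=
  Relation.ReflTransGen.single ⟨h, hx, hy⟩

lemma NB.of_conn {x y b : V} (h : NB G B x b) (h' : conn G B x y) : NB G B y b := by
  obtain ⟨z, h1, h2, h3⟩ := h
  exact ⟨z, h'.symm.trans h1, h2, h3⟩

end comp

/-! ### Splitting a bag -/

open Classical in
lemma exists_split {V : Type} {G : SimpleGraph V} (D : TreeDecomp G) (t : D.ι) (u v : V)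
    (hu : u ∈ D.bag t) (hv : v ∈ D.bag t) (huv : u ≠ v) (hadj : ¬ G.Adj u v)
    (hno : ∀ x, x ∉ D.bag t → NB G (D.bag t) x u → NB G (D.bag t) x v → False) :
    ∃ D' : TreeDecomp G, (∀ x', ∃ x, D'.bag x' ⊆ D.bag x) ∧
      ∀ x', ¬ (u ∈ D'.bag x' ∧ v ∈ D'.bag x') := by
  set B := D.bag t with hB
  let X : V → Prop := fun y => y ∉ B ∧ NB G B y u
  let P1 : V → Prop := fun z => X z ∨ (z ∈ B ∧ z ≠ v)
  let P2 : V → Prop := fun z => (z ∉ B ∧ ¬ X z) ∨ (z ∈ B ∧ z ≠ u)
  let bag' : D.ι ⊕ D.ι → Finset V := fun x => match x with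
    | Sum.inl s => (D.bag s).filter P1
    | Sum.inr s => (D.bag s).filter P2
  have hbl : ∀ s z, z ∈ bag' (Sum.inl s) ↔ z ∈ D.bag s ∧ P1 z := fun s z => mem_filter
  have hbr : ∀ s z, z ∈ bag' (Sum.inr s) ↔ z ∈ D.bag s ∧ P2 z := fun s z => mem_filter
  have hl : ∀ z, P1 z → ∀ a b (ha : z ∈ D.bag a) (hb : z ∈ D.bag b) (ha' : z ∈ bag' (Sum.inl a))
      (hb' : z ∈ bag' (Sum.inl b)),
      ((dbl D.T t).induce {x | z ∈ bag' x}).Reachable ⟨Sum.inl a, ha'⟩ ⟨Sum.inl b, hb'⟩ := by
    intro z hz a b ha hb ha' hb'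
    have h := (D.conn z).preconnected ⟨a, ha⟩ ⟨b, hb⟩
    exact h.map (⟨fun s => ⟨Sum.inl s.1, (hbl _ _).2 ⟨s.2, hz⟩⟩, fun h => h⟩ :
      (D.T.induce {x | z ∈ D.bag x}) →g ((dbl D.T t).induce {x | z ∈ bag' x}))
  have hr : ∀ z, P2 z → ∀ a b (ha : z ∈ D.bag a) (hb : z ∈ D.bag b) (ha' : z ∈ bag' (Sum.inr a))
      (hb' : z ∈ bag' (Sum.inr b)),
      ((dbl D.T t).induce {x | z ∈ bag' x}).Reachable ⟨Sum.inr a, ha'⟩ ⟨Sum.inr b, hb'⟩ := by
    intro z hz a b ha hb ha' hb'
    have h := (D.conn z).preconnected ⟨a, ha⟩ ⟨b, hb⟩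
    exact h.map (⟨fun s => ⟨Sum.inr s.1, (hbr _ _).2 ⟨s.2, hz⟩⟩, fun h => h⟩ :
      (D.T.induce {x | z ∈ D.bag x}) →g ((dbl D.T t).induce {x | z ∈ bag' x}))
  have hboth : ∀ z, P1 z → P2 z → z ∈ B := by
    rintro z (h1 | h1) (h2 | h2)
    · exact absurd h1 h2.2
    · exact h2.1
    · exact h1.1
    · exact h1.1
  have hsome : ∀ z, P1 z ∨ P2 z := by
    intro z
    by_cases hz : z ∈ B
    · by_cases hzv : z = v
      · right; right; exact ⟨hz, fun h => huv (h.symm.trans hzv)⟩
      · left; right; exact ⟨hz, hzv⟩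
    · by_cases hX : X z
      · left; left; exact hX
      · right; left; exact ⟨hz, hX⟩
  refine ⟨⟨D.ι ⊕ D.ι, ?_, dbl D.T t, dbl_isTree D.isTree t, bag', ?_, ?_⟩, ?_, ?_⟩
  · have := D.fin
    infer_instance
  · intro a b hab
    obtain ⟨s, has, hbs⟩ := D.edge a b hab
    by_cases ha : a ∈ B
    · by_cases hb : b ∈ B
      · by_cases h : a ≠ v ∧ b ≠ v
        · exact ⟨Sum.inl t, (hbl _ _).2 ⟨ha, Or.inr ⟨ha, h.1⟩⟩, (hbl _ _).2 ⟨hb, Or.inr ⟨hb, h.2⟩⟩⟩
        · have h' : a ≠ u ∧ b ≠ u := by
            rw [not_and_or] at h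
            push Not at h
            rcases h with h | h
            · subst h
              exact ⟨huv.symm, fun h => hadj (h ▸ hab.symm)⟩
            · subst h
              exact ⟨fun h => hadj (h ▸ hab), huv.symm⟩
          exact ⟨Sum.inr t, (hbr _ _).2 ⟨ha, Or.inr ⟨ha, h'.1⟩⟩,
            (hbr _ _).2 ⟨hb, Or.inr ⟨hb, h'.2⟩⟩⟩
      · by_cases hX : X b
        · have hav : a ≠ v := by
            rintro rfl
            exact hno b hb hX.2 ⟨b, Relation.ReflTransGen.refl, hb, hab.symm⟩
          exact ⟨Sum.inl s, (hbl _ _).2 ⟨has, Or.inr ⟨ha, hav⟩⟩, (hbl _ _).2 ⟨hbs, Or.inl hX⟩⟩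
        · have hau : a ≠ u := by
            rintro rfl
            exact hX ⟨hb, b, Relation.ReflTransGen.refl, hb, hab.symm⟩
          exact ⟨Sum.inr s, (hbr _ _).2 ⟨has, Or.inr ⟨ha, hau⟩⟩,
            (hbr _ _).2 ⟨hbs, Or.inl ⟨hb, hX⟩⟩⟩
    · by_cases hb : b ∈ B
      · by_cases hX : X a
        · have hav : b ≠ v := by
            rintro rfl
            exact hno a ha hX.2 ⟨a, Relation.ReflTransGen.refl, ha, hab⟩
          exact ⟨Sum.inl s, (hbl _ _).2 ⟨has, Or.inl hX⟩, (hbl _ _).2 ⟨hbs, Or.inr ⟨hb, hav⟩⟩⟩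
        · have hau : b ≠ u := by
            rintro rfl
            exact hX ⟨ha, a, Relation.ReflTransGen.refl, ha, hab⟩
          exact ⟨Sum.inr s, (hbr _ _).2 ⟨has, Or.inl ⟨ha, hX⟩⟩,
            (hbr _ _).2 ⟨hbs, Or.inr ⟨hb, hau⟩⟩⟩
      · have hc := conn.of_adj (G := G) (B := B) hab ha hb
        by_cases hX : X a
        · exact ⟨Sum.inl s, (hbl _ _).2 ⟨has, Or.inl hX⟩,
            (hbl _ _).2 ⟨hbs, Or.inl ⟨hb, hX.2.of_conn hc⟩⟩⟩
        · exact ⟨Sum.inr s, (hbr _ _).2 ⟨has, Or.inl ⟨ha, hX⟩⟩,
            (hbr _ _).2 ⟨hbs, Or.inl ⟨hb, fun h => hX ⟨ha, h.2.of_conn hc.symm⟩⟩⟩⟩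
  · intro z
    obtain ⟨⟨a, ha⟩⟩ := (D.conn z).nonempty
    have hpre : ((dbl D.T t).induce {x | z ∈ bag' x}).Preconnected := by
      rintro ⟨x | x, hx⟩ ⟨y | y, hy⟩
      · exact hl z ((hbl _ _).1 hx).2 x y ((hbl _ _).1 hx).1 ((hbl _ _).1 hy).1 hx hy
      · have h1 := (hbl _ _).1 hx
        have h2 := (hbr _ _).1 hy
        have hz : z ∈ D.bag t := hboth z h1.2 h2.2
        have hz1 : z ∈ bag' (Sum.inl t) := (hbl _ _).2 ⟨hz, h1.2⟩
        have hz2 : z ∈ bag' (Sum.inr t) := (hbr _ _).2 ⟨hz, h2.2⟩
        refine (hl z h1.2 x t h1.1 hz hx hz1).trans (Reachable.trans ?_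
          (hr z h2.2 t y hz h2.1 hz2 hy))
        exact Adj.reachable ⟨rfl, rfl⟩
      · have h1 := (hbr _ _).1 hx
        have h2 := (hbl _ _).1 hy
        have hz : z ∈ D.bag t := hboth z h2.2 h1.2
        have hz1 : z ∈ bag' (Sum.inl t) := (hbl _ _).2 ⟨hz, h2.2⟩
        have hz2 : z ∈ bag' (Sum.inr t) := (hbr _ _).2 ⟨hz, h1.2⟩
        refine (hr z h1.2 x t h1.1 hz hx hz2).trans (Reachable.trans ?_
          (hl z h2.2 t y hz h2.1 hz1 hy))
        exact Adj.reachable ⟨rfl, rfl⟩
      · exact hr z ((hbr _ _).1 hx).2 x y ((hbr _ _).1 hx).1 ((hbr _ _).1 hy).1 hx hy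
    have hne : Nonempty ({x | z ∈ bag' x} : Set (D.ι ⊕ D.ι)) := by
      rcases hsome z with h | h
      · exact ⟨⟨Sum.inl a, (hbl _ _).2 ⟨ha, h⟩⟩⟩
      · exact ⟨⟨Sum.inr a, (hbr _ _).2 ⟨ha, h⟩⟩⟩
    exact ⟨hpre⟩
  · rintro (x | x)
    · exact ⟨x, filter_subset _ _⟩
    · exact ⟨x, filter_subset _ _⟩
  · rintro (x | x) ⟨h1, h2⟩
    · rcases ((hbl _ _).1 h2).2 with h | h
      · exact h.1 hv
      · exact h.2 rfl
    · rcases ((hbr _ _).1 h1).2 with h | h
      · exact h.1 hu
      · exact h.2 rfl

/-! ### Inclusion-maximal bags -/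

lemma TreeDecomp.walk {V : Type} {G : SimpleGraph V} (D : TreeDecomp G) (v : V) (i j : D.ι)
    (hi : v ∈ D.bag i) (hj : v ∈ D.bag j) : ∃ q : D.T.Walk i j, ∀ x ∈ q.support, v ∈ D.bag x :=
  wconn_of_induce D.T {x | v ∈ D.bag x} (D.conn v).preconnected i hi j hj

lemma wconn_conn {V : Type} {G : SimpleGraph V} {B : Finset V} (x : V) :
    H279R3.WConn G {y | conn G B x y} := by
  have key : ∀ y z, conn G B x y → conn G B y z →
      ∃ q : G.Walk y z, ∀ w ∈ q.support, w ∈ {y | conn G B x y} := by
    intro y z hy hz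
    unfold conn at hz
    induction hz with
    | refl => exact ⟨Walk.nil, fun w hw => by
        simp only [Walk.support_nil, List.mem_singleton] at hw
        rw [hw]; exact hy⟩
    | @tail b c h1 h2 ih =>
      obtain ⟨q, hq⟩ := ih
      refine ⟨q.append (Walk.cons h2.1 Walk.nil), fun w hw => ?_⟩
      rw [Walk.mem_support_append_iff] at hw
      have hb : conn G B x b := hy.trans h1
      have hc : conn G B x c := hb.trans (Relation.ReflTransGen.single h2)
      rcases hw with hw | hw
      · exact hq w hw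
      · simp only [Walk.support_cons, Walk.support_nil, List.mem_cons, List.not_mem_nil,
          or_false] at hw
        rcases hw with rfl | rfl
        · exact hb
        · exact hc
  intro y hy z hz
  exact key y z hy (conn.trans (conn.symm hy) hz)

/-- A component outside an inclusion-maximal bag misses some vertex of the bag. -/
lemma exists_not_NB {V : Type} {G : SimpleGraph V} (D : TreeDecomp G) (t : D.ι)
    (hmax : ∀ s, D.bag t ⊆ D.bag s → D.bag s ⊆ D.bag t) (x : V) (hx : x ∉ D.bag t) :
    ∃ b ∈ D.bag t, ¬ NB G (D.bag t) x b := by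
  by_contra hcon
  push Not at hcon
  let F : Option {b // b ∈ D.bag t} → Set D.ι := fun o => match o with
    | none => {s | ∃ y ∈ {y | conn G (D.bag t) x y}, y ∈ D.bag s}
    | some b => {s | b.1 ∈ D.bag s}
  have hFc : ∀ a, H279R3.WConn D.T (F a) := by
    rintro (_ | b)
    · exact H279R3.trace_conn D.edge (fun v i j hi hj => D.walk v i j hi hj) (wconn_conn x)
    · exact wconn_of_induce D.T _ (D.conn b.1).preconnected
  have hnone : ∀ b : {b // b ∈ D.bag t}, ∃ s, s ∈ F none ∧ s ∈ F (some b) := by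
    intro b
    obtain ⟨y, h1, h2, h3⟩ := hcon b.1 b.2
    obtain ⟨s, hs1, hs2⟩ := D.edge y b.1 h3
    exact ⟨s, ⟨y, h1, hs1⟩, hs2⟩
  have hm : ∀ a b, (F a ∩ F b).Nonempty := by
    rintro (_ | a) (_ | b)
    · obtain ⟨⟨s, hs⟩⟩ := (D.conn x).nonempty
      exact ⟨s, ⟨x, Relation.ReflTransGen.refl, hs⟩, ⟨x, Relation.ReflTransGen.refl, hs⟩⟩
    · obtain ⟨s, h1, h2⟩ := hnone b
      exact ⟨s, h1, h2⟩
    · obtain ⟨s, h1, h2⟩ := hnone a
      exact ⟨s, h2, h1⟩
    · exact ⟨t, a.2, b.2⟩
  obtain ⟨s, hs⟩ := H279R3.helly D.isTree F hFc hm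
  obtain ⟨y, hy1, hy2⟩ := hs none
  have hsub : D.bag t ⊆ D.bag s := fun b hb => hs (some ⟨b, hb⟩)
  exact (conn.notMem hy1 hx) (hmax s hsub hy2)

/-! ### A tree-decomposition with minimum fill-in -/

open Classical in
/-- the pairs of distinct vertices that share a bag -/
noncomputable def TreeDecomp.fill {V : Type} [Fintype V] {G : SimpleGraph V}
    (D : TreeDecomp G) : Finset (V × V) :=
  univ.filter (fun p => p.1 ≠ p.2 ∧ ∃ x, p.1 ∈ D.bag x ∧ p.2 ∈ D.bag x)

lemma exists_widthLE {V : Type} [Fintype V] (G : SimpleGraph V) :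
    ∃ D : TreeDecomp G, D.WidthLE (treewidth G) := by
  have hne : {k | ∃ D : TreeDecomp G, D.WidthLE k}.Nonempty := by
    have hconn : (⊥ : SimpleGraph Unit).IsTree := by
      constructor
      · have : Nonempty Unit := ⟨()⟩
        exact ⟨fun a b => Reachable.refl _⟩
      · intro v p hp
        have h3 := hp.three_le_length
        cases p with
        | nil => simp at h3
        | cons h _ => exact absurd h (by simp)
    refine ⟨Fintype.card V, ⟨Unit, inferInstance, ⊥, hconn, fun _ => univ,
      fun u v _ => ⟨(), mem_univ _, mem_univ _⟩, fun v => ?_⟩, fun x => ?_⟩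
    · have : Nonempty ({x | v ∈ (univ : Finset V)} : Set Unit) := ⟨⟨(), mem_univ v⟩⟩
      exact ⟨fun a b => by
        have : a = b := Subtype.ext rfl
        rw [this]⟩
    · change (univ : Finset V).card ≤ _
      rw [card_univ]
      exact Nat.le_succ _
  exact Nat.sInf_mem hne

lemma exists_min_fill {V : Type} [Fintype V] (G : SimpleGraph V) :
    ∃ D : TreeDecomp G, D.WidthLE (treewidth G) ∧
      ∀ D' : TreeDecomp G, D'.WidthLE (treewidth G) → D.fill.card ≤ D'.fill.card := by
  classical
  have hex : ∃ n, ∃ D : TreeDecomp G, D.WidthLE (treewidth G) ∧ D.fill.card = n := by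
    obtain ⟨D, hD⟩ := exists_widthLE G
    exact ⟨_, D, hD, rfl⟩
  obtain ⟨D, hD, hn⟩ := Nat.find_spec hex
  refine ⟨D, hD, fun D' hD' => ?_⟩
  rw [hn]
  exact Nat.find_min' hex ⟨D', hD', rfl⟩

lemma common_component {V : Type} [Fintype V] {G : SimpleGraph V} (D : TreeDecomp G)
    (hD : D.WidthLE (treewidth G))
    (hmin : ∀ D' : TreeDecomp G, D'.WidthLE (treewidth G) → D.fill.card ≤ D'.fill.card)
    (t : D.ι) (u v : V) (hu : u ∈ D.bag t) (hv : v ∈ D.bag t) (huv : u ≠ v)
    (hadj : ¬ G.Adj u v) :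
    ∃ x, x ∉ D.bag t ∧ NB G (D.bag t) x u ∧ NB G (D.bag t) x v := by
  by_contra hcon
  push Not at hcon
  obtain ⟨D', h1, h2⟩ := exists_split D t u v hu hv huv hadj
    (fun x hx h3 h4 => hcon x hx h3 h4)
  have hw : D'.WidthLE (treewidth G) := by
    intro x'
    obtain ⟨x, hx⟩ := h1 x'
    exact (card_le_card hx).trans (hD x)
  have hlt : D'.fill ⊂ D.fill := by
    rw [Finset.ssubset_iff_of_subset]
    · refine ⟨(u, v), ?_, ?_⟩
      · simp only [TreeDecomp.fill, mem_filter, mem_univ, true_and]
        exact ⟨huv, t, hu, hv⟩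
      · simp only [TreeDecomp.fill, mem_filter, mem_univ, true_and, not_and, not_exists]
        intro _ x' h3 h4
        exact h2 x' ⟨h3, h4⟩
    · intro p hp
      simp only [TreeDecomp.fill, mem_filter, mem_univ, true_and] at hp ⊢
      obtain ⟨h3, x', h4, h5⟩ := hp
      obtain ⟨x, hx⟩ := h1 x'
      exact ⟨h3, x, hx h4, hx h5⟩
  have := hmin D' hw
  have := card_lt_card hlt
  omega

/-! ### Few vertices of a maximal bag have three neighbours inside the bag -/

section count

open Classical in
/-- In an inclusion-maximal bag `B` with at least 16 vertices, at most 16 vertices have at least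
three neighbours inside `B`. -/
lemma card_heavy_le {V : Type} [Fintype V] {G : SimpleGraph V} (B : Finset V)
    (hdeg : ∀ v, (univ.filter (G.Adj v)).card ≤ 4)
    (hmiss : ∀ x, x ∉ B → ∃ b ∈ B, ¬ NB G B x b)
    (hcom : ∀ u ∈ B, ∀ v ∈ B, u ≠ v → ¬ G.Adj u v → ∃ x, x ∉ B ∧ NB G B x u ∧ NB G B x v)
    (hB : 16 ≤ B.card) :
    (B.filter (fun v => 3 ≤ (B.filter (G.Adj v)).card)).card ≤ 16 := by
  set U := B.filter (fun v => 3 ≤ (B.filter (G.Adj v)).card) with hU
  -- splitting of the neighbourhood
  have hsplit : ∀ w, (B.filter (G.Adj w)).card +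
      ((univ.filter (G.Adj w)).filter (fun z => z ∉ B)).card ≤ 4 := by
    intro w
    have h1 : B.filter (G.Adj w) = (univ.filter (G.Adj w)).filter (fun z => z ∈ B) := by
      ext z
      simp [and_comm]
    rw [h1, card_filter_add_card_filter_not]
    exact hdeg w
  -- the unique outside neighbour
  have hout : ∀ w ∈ U, ∃ o, o ∉ B ∧ G.Adj w o ∧ (∀ y, y ∉ B → G.Adj w y → y = o) ∧
      (∀ b ∈ B, ¬ G.Adj w b → NB G B o b) := by
    intro w hw
    rw [hU, mem_filter] at hw
    have h1 : ((univ.filter (G.Adj w)).filter (fun z => z ∉ B)).card ≤ 1 := by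
      have := hsplit w
      omega
    have huniq : ∀ y z, y ∉ B → z ∉ B → G.Adj w y → G.Adj w z → y = z := by
      intro y z hy hz hwy hwz
      rw [card_le_one] at h1
      exact h1 y (by simp [hy, hwy]) z (by simp [hz, hwz])
    have hex : ∃ b ∈ B, b ≠ w ∧ ¬ G.Adj w b := by
      by_contra hcon
      push Not at hcon
      have h2 : B ⊆ insert w (univ.filter (G.Adj w)) := by
        intro b hb
        rw [mem_insert, mem_filter]
        by_cases hbw : b = w
        · exact Or.inl hbw
        · exact Or.inr ⟨mem_univ _, hcon b hb hbw⟩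
      have h3 := card_le_card h2
      have h4 := card_insert_le w (univ.filter (G.Adj w))
      have h5 := hdeg w
      omega
    obtain ⟨b, hb, hbw, hnb⟩ := hex
    obtain ⟨x, hx, hxw, -⟩ := hcom w hw.1 b hb hbw.symm hnb
    obtain ⟨o, ho1, ho2, ho3⟩ := hxw
    refine ⟨o, ho2, ho3.symm, fun y hy hwy => huniq y o hy ho2 hwy ho3.symm, ?_⟩
    intro c hc hnc
    by_cases hcw : c = w
    · subst hcw
      exact ⟨o, Relation.ReflTransGen.refl, ho2, ho3⟩
    · obtain ⟨x', hx', hx'w, hx'c⟩ := hcom w hw.1 c hc (Ne.symm hcw) hnc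
      obtain ⟨y, hy1, hy2, hy3⟩ := hx'w
      have : y = o := huniq y o hy2 ho2 hy3.symm ho3.symm
      subst this
      exact hx'c.of_conn hy1
  choose! o ho1 ho2 ho3 ho4 using hout
  -- pairwise unconnected sets have at most 4 elements
  let P : Finset V → Prop := fun R => ∀ r ∈ R, ∀ s ∈ R, r ≠ s → ¬ conn G B (o r) (o s)
  have hUB : U ⊆ B := filter_subset _ _
  have hP4 : ∀ R ⊆ U, P R → R.card ≤ 4 := by
    intro R hRU hR
    by_contra hcon
    push Not at hcon
    obtain ⟨R', hR'R, hR'c⟩ := exists_subset_card_eq (show 5 ≤ R.card from hcon)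
    have hsmall : ∀ w ∈ R', (B.filter (fun b => ¬ NB G B (o w) b)).card ≤ 3 := by
      intro w hw
      have hwU := hRU (hR'R hw)
      have h1 : B.filter (fun b => ¬ NB G B (o w) b) ⊆ B.filter (G.Adj w) := by
        intro b hb
        rw [mem_filter] at hb ⊢
        refine ⟨hb.1, ?_⟩
        by_contra hnb
        exact hb.2 (ho4 w hwU b hb.1 hnb)
      have h2 : 1 ≤ ((univ.filter (G.Adj w)).filter (fun z => z ∉ B)).card := by
        rw [Nat.one_le_iff_ne_zero, ← Nat.pos_iff_ne_zero, card_pos]
        exact ⟨o w, by simp [ho1 w hwU, ho2 w hwU]⟩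
      have h3 := card_le_card h1
      have h4 := hsplit w
      omega
    have hunion : (R'.biUnion (fun w => B.filter (fun b => ¬ NB G B (o w) b))).card ≤ 5 * 3 := by
      rw [← hR'c]
      exact card_biUnion_le_card_mul _ _ _ hsmall
    have hex : ∃ v ∈ B, v ∉ R'.biUnion (fun w => B.filter (fun b => ¬ NB G B (o w) b)) := by
      by_contra hcon2
      push Not at hcon2
      have := card_le_card hcon2
      omega
    obtain ⟨v, hv, hv'⟩ := hex
    have hv2 : ∀ w ∈ R', NB G B (o w) v := by
      intro w hw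
      by_contra hnb
      exact hv' (mem_biUnion.2 ⟨w, hw, mem_filter.2 ⟨hv, hnb⟩⟩)
    have hv3 : ∀ w ∈ R', ∃ y, conn G B (o w) y ∧ y ∉ B ∧ G.Adj y v := hv2
    choose! y hy1 hy2 hy3 using hv3
    have hinj : Set.InjOn y (R' : Set V) := by
      intro r hr s hs hrs
      by_contra hne
      apply hR r (hR'R hr) s (hR'R hs) hne
      have h1 := hy1 r hr
      have h2 := hy1 s hs
      rw [hrs] at h1
      exact h1.trans h2.symm
    have h5 : (R'.image y).card = 5 := by rw [card_image_of_injOn hinj, hR'c]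
    have h6 : R'.image y ⊆ univ.filter (G.Adj v) := by
      intro z hz
      obtain ⟨w, hw, rfl⟩ := mem_image.1 hz
      rw [mem_filter]
      exact ⟨mem_univ _, (hy3 w hw).symm⟩
    have h7 := card_le_card h6
    have h8 := hdeg v
    omega
  -- a pairwise unconnected set of maximum size
  obtain ⟨R, hR, hRmax⟩ := exists_max_image (U.powerset.filter P) card
    ⟨∅, by rw [mem_filter]; exact ⟨empty_mem_powerset _, fun r hr => absurd hr (notMem_empty _)⟩⟩
  rw [mem_filter, mem_powerset] at hR
  obtain ⟨hRU, hRP⟩ := hR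
  have hcover : ∀ w ∈ U, ∃ r ∈ R, conn G B (o r) (o w) := by
    intro w hw
    by_cases hwR : w ∈ R
    · exact ⟨w, hwR, Relation.ReflTransGen.refl⟩
    · by_contra hcon
      push Not at hcon
      have hPi : P (insert w R) := by
        intro r hr s hs hrs
        rcases mem_insert.1 hr with hr1 | hr1
        · rcases mem_insert.1 hs with hs1 | hs1
          · exact absurd (hr1.trans hs1.symm) hrs
          · rw [hr1]
            exact fun h => hcon s hs1 h.symm
        · rcases mem_insert.1 hs with hs1 | hs1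
          · rw [hs1]
            exact hcon r hr1
          · exact hRP r hr1 s hs1 hrs
      have h1 := hRmax (insert w R) (by
        rw [mem_filter, mem_powerset]
        exact ⟨insert_subset hw hRU, hPi⟩)
      rw [card_insert_of_notMem hwR] at h1
      omega
  have hb : ∀ r ∈ R, ∃ b ∈ B, ¬ NB G B (o r) b := fun r hr => hmiss (o r) (ho1 r (hRU hr))
  choose! b hb1 hb2 using hb
  have hfin : U ⊆ R.biUnion (fun r => univ.filter (G.Adj (b r))) := by
    intro w hw
    obtain ⟨r, hr, hrw⟩ := hcover w hw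
    rw [mem_biUnion]
    refine ⟨r, hr, ?_⟩
    rw [mem_filter]
    refine ⟨mem_univ _, ?_⟩
    by_contra hnb
    have h1 : NB G B (o w) (b r) := ho4 w hw (b r) (hb1 r hr) (fun h => hnb h.symm)
    exact hb2 r hr (h1.of_conn hrw.symm)
  have h1 := card_le_card hfin
  have h2 := card_biUnion_le_card_mul R (fun r => univ.filter (G.Adj (b r))) 4
    (fun r _ => hdeg (b r))
  have h3 := hP4 R hRU hRP
  omega

end count

/-! ### Graphs of maximum degree two have width two -/

section elim

open Classical in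
lemma exists_PTD {V : Type} : ∀ (n : ℕ) (G : SimpleGraph V) (S : Finset V), S.card = n →
    (∀ v ∈ S, (S.filter (G.Adj v)).card ≤ 2) →
    ∃ m par B, PTD G S m par B ∧ ∀ i, (B i).card ≤ 3 := by
  intro n
  induction n with
  | zero =>
    intro G S hS _
    refine ⟨1, _, _, PTD.single G S, fun i => ?_⟩
    rw [hS]
    omega
  | succ n ih =>
    intro G S hS hdeg
    obtain ⟨v, hv⟩ : S.Nonempty := by
      rw [← card_pos]
      omega
    set K := S.filter (G.Adj v) with hK
    have hvK : v ∉ K := by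
      rw [hK, mem_filter]
      exact fun h => G.loopless.irrefl v h.2
    let G' : SimpleGraph V :=
      { Adj := fun a b => G.Adj a b ∨ (a ≠ b ∧ a ∈ K ∧ b ∈ K)
        symm := ⟨fun a b h => by
          rcases h with h | h
          · exact Or.inl h.symm
          · exact Or.inr ⟨h.1.symm, h.2.2, h.2.1⟩⟩
        loopless := ⟨fun a h => by
          rcases h with h | h
          · exact G.loopless.irrefl a h
          · exact h.1 rfl⟩ }
    have hdeg' : ∀ u ∈ S.erase v, ((S.erase v).filter (G'.Adj u)).card ≤ 2 := by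
      intro u hu
      rw [mem_erase] at hu
      by_cases huK : u ∈ K
      · have h1 : (S.erase v).filter (G'.Adj u) ⊆
            ((S.filter (G.Adj u)).erase v) ∪ (K.erase u) := by
          intro z hz
          rw [mem_filter, mem_erase] at hz
          obtain ⟨⟨hzv, hzS⟩, hz⟩ := hz
          rw [mem_union, mem_erase, mem_erase, mem_filter]
          rcases hz with hz | hz
          · exact Or.inl ⟨hzv, hzS, hz⟩
          · exact Or.inr ⟨hz.1.symm, hz.2.2⟩
        have h2 : v ∈ S.filter (G.Adj u) := by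
          rw [mem_filter]
          exact ⟨hv, ((mem_filter.1 huK).2).symm⟩
        have h3 := card_erase_of_mem h2
        have h4 := card_erase_of_mem huK
        have h5 := hdeg u hu.2
        have h6 := hdeg v hv
        have h7 := card_le_card h1
        have h8 := card_union_le ((S.filter (G.Adj u)).erase v) (K.erase u)
        rw [← hK] at h6
        omega
      · have h1 : (S.erase v).filter (G'.Adj u) ⊆ S.filter (G.Adj u) := by
          intro z hz
          rw [mem_filter, mem_erase] at hz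
          obtain ⟨⟨hzv, hzS⟩, hz⟩ := hz
          rw [mem_filter]
          rcases hz with hz | hz
          · exact ⟨hzS, hz⟩
          · exact absurd hz.2.1 huK
        exact (card_le_card h1).trans (hdeg u hu.2)
    obtain ⟨m, par, B, hB, hB3⟩ := ih G' (S.erase v) (by rw [card_erase_of_mem hv]; omega)
      (fun u hu => by convert hdeg' u hu)
    have hKS : K ⊆ S.erase v := by
      intro z hz
      rw [mem_erase]
      exact ⟨fun h => hvK (h ▸ hz), (mem_filter.1 hz).1⟩
    obtain ⟨x, hx, hKx⟩ := hB.clique K hKS (fun a ha b hb hab => Or.inr ⟨hab, ha, hb⟩)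
    have hBG : PTD G (S.erase v) m par B :=
      { hB with edge := fun a ha b hb hab => hB.edge a ha b hb (Or.inl hab) }
    have h := hBG.addLeaf {v} K (by simp) hKS x hx hKx (by
      intro a ha b hb hab
      rw [mem_singleton] at ha
      subst ha
      rw [hK, mem_filter]
      exact ⟨(mem_erase.1 hb).2, hab⟩)
    have hS' : S.erase v ∪ {v} = S := by
      ext z
      simp only [mem_union, mem_erase, mem_singleton]
      constructor
      · rintro (h | rfl)
        · exact h.2
        · exact hv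
      · intro hz
        by_cases hzv : z = v
        · exact Or.inr hzv
        · exact Or.inl ⟨hzv, hz⟩
    rw [hS'] at h
    refine ⟨_, _, _, h, fun i => ?_⟩
    split_ifs
    · have h6 := hdeg v hv
      have h7 := card_union_le {v} K
      rw [card_singleton] at h7
      rw [← hK] at h6
      omega
    · exact hB3 i

open Classical in
/-- If all vertices of `A` outside a set `U` of at most 16 vertices have at most two neighbours in
`A \ U`, then `G[A]` has treewidth at most 18. -/
lemma treewidth_le {V : Type} (G : SimpleGraph V) (A U : Finset V) (hU : U.card ≤ 16)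
    (hdeg : ∀ v ∈ A \ U, ((A \ U).filter (G.Adj v)).card ≤ 2) :
    treewidth (G.induce (A : Set V)) ≤ 18 := by
  obtain ⟨m, par, B, hB, hB3⟩ := exists_PTD _ G (A \ U) rfl hdeg
  apply Nat.sInf_le
  let bag : Fin m → Finset (A : Set V) := fun i =>
    (B i.1 ∪ U).subtype (fun x => x ∈ (A : Set V))
  have hbag : ∀ i (z : (A : Set V)), z ∈ bag i ↔ z.1 ∈ B i.1 ∪ U := fun i z => by
    simp only [bag, mem_subtype]
  have hT := ptree_isTree hB.pos hB.lt
  refine ⟨⟨Fin m, inferInstance, ptree m par hB.lt, hT, bag, ?_, ?_⟩, ?_⟩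
  · rintro ⟨u, hu⟩ ⟨v, hv⟩ huv
    have huv : G.Adj u v := huv
    by_cases h1 : u ∈ U
    · by_cases h2 : v ∈ U
      · exact ⟨⟨0, hB.pos⟩, (hbag _ _).2 (mem_union_right _ h1), (hbag _ _).2 (mem_union_right _ h2)⟩
      · obtain ⟨i, hi, hvi⟩ := hB.cov v (mem_sdiff.2 ⟨hv, h2⟩)
        exact ⟨⟨i, hi⟩, (hbag _ _).2 (mem_union_right _ h1), (hbag _ _).2 (mem_union_left _ hvi)⟩
    · by_cases h2 : v ∈ U
      · obtain ⟨i, hi, hui⟩ := hB.cov u (mem_sdiff.2 ⟨hu, h1⟩)
        exact ⟨⟨i, hi⟩, (hbag _ _).2 (mem_union_left _ hui), (hbag _ _).2 (mem_union_right _ h2)⟩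
      · obtain ⟨i, hi, hui, hvi⟩ := hB.edge u (mem_sdiff.2 ⟨hu, h1⟩) v (mem_sdiff.2 ⟨hv, h2⟩) huv
        exact ⟨⟨i, hi⟩, (hbag _ _).2 (mem_union_left _ hui), (hbag _ _).2 (mem_union_left _ hvi)⟩
  · rintro ⟨z, hz⟩
    by_cases h1 : z ∈ U
    · have h2 : {x | (⟨z, hz⟩ : (A : Set V)) ∈ bag x} = Set.univ := by
        ext i
        simp only [Set.mem_ofPred_eq, Set.mem_univ, iff_true]
        exact (hbag _ _).2 (mem_union_right _ h1)
      rw [h2]
      exact (Iso.connected_iff (induceUnivIso _)).2 hT.connected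
    · have h2 : {x | (⟨z, hz⟩ : (A : Set V)) ∈ bag x} = {i : Fin m | z ∈ B i.1} := by
        ext i
        simp only [Set.mem_ofPred_eq]
        rw [hbag, mem_union]
        exact or_iff_left h1
      rw [h2]
      exact hB.connected z (mem_sdiff.2 ⟨hz, h1⟩)
  · intro i
    have h1 : (bag i).card ≤ (B i.1 ∪ U).card := by
      simp only [bag, card_subtype]
      exact card_filter_le _ _
    have h2 := card_union_le (B i.1) U
    have h3 := hB3 i.1
    change (bag i).card ≤ _
    omega

end elim

/-- **Main result.** Every finite graph of maximum degree at most 4 has an optimal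
tree-decomposition in which every bag induces a subgraph of treewidth at most 18. -/
theorem result (V : Type) [Finite V] (G : SimpleGraph V)
    (hdeg : ∀ v, (G.neighborSet v).ncard ≤ 4) :
    ∃ D : TreeDecomp G, D.WidthLE (treewidth G) ∧
      ∀ x, treewidth (G.induce (D.bag x : Set V)) ≤ 18 := by
  classical
  have := Fintype.ofFinite V
  have hdeg' : ∀ v, (univ.filter (G.Adj v)).card ≤ 4 := by
    intro v
    have h1 : G.neighborSet v = ((univ.filter (G.Adj v) : Finset V) : Set V) := by
      ext z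
      simp
    have := hdeg v
    rwa [h1, Set.ncard_coe_finset] at this
  obtain ⟨D, hD, hmin⟩ := exists_min_fill G
  refine ⟨D, hD, fun x => ?_⟩
  have := D.fin
  -- an inclusion-maximal bag containing the bag of `x`
  obtain ⟨t, ht1, ht2⟩ : ∃ t, D.bag x ⊆ D.bag t ∧ ∀ s, D.bag t ⊆ D.bag s → D.bag s ⊆ D.bag t := by
    have hex : ∃ n, ∃ t, D.bag x ⊆ D.bag t ∧ Fintype.card V - (D.bag t).card = n :=
      ⟨_, x, Subset.rfl, rfl⟩
    obtain ⟨t, ht1, ht2⟩ := Nat.find_spec hex
    refine ⟨t, ht1, fun s hs => ?_⟩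
    have h1 := Nat.find_min' hex ⟨s, ht1.trans hs, rfl⟩
    have h2 : (D.bag s).card ≤ Fintype.card V := card_le_univ _
    have h3 : (D.bag t).card ≤ Fintype.card V := card_le_univ _
    have h4 := eq_of_subset_of_card_le hs (by omega)
    rw [h4]
  set B := D.bag t with hB
  -- the set of removed vertices
  obtain ⟨U, hUc, hU⟩ : ∃ U : Finset V, U.card ≤ 16 ∧
      ∀ v ∈ B \ U, (B.filter (G.Adj v)).card ≤ 2 := by
    by_cases h16 : 16 ≤ B.card
    · refine ⟨B.filter (fun v => 3 ≤ (B.filter (G.Adj v)).card), ?_, ?_⟩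
      · exact card_heavy_le B hdeg' (fun x hx => exists_not_NB D t ht2 x hx)
          (fun u hu v hv huv hadj => common_component D hD hmin t u v hu hv huv hadj) h16
      · intro v hv
        rw [mem_sdiff, mem_filter, not_and, not_le] at hv
        have := hv.2 hv.1
        omega
    · refine ⟨B, by omega, fun v hv => ?_⟩
      rw [sdiff_self] at hv
      exact absurd hv (notMem_empty v)
  apply treewidth_le G (D.bag x) U hUc
  intro v hv
  rw [mem_sdiff] at hv
  refine (card_le_card ?_).trans (hU v (mem_sdiff.2 ⟨ht1 hv.1, hv.2⟩))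
  intro z hz
  rw [mem_filter, mem_sdiff] at hz
  rw [mem_filter]
  exact ⟨ht1 hz.1.1, hz.2⟩

end Pool.Agent.Results.MP_888b70_co.OptimalDegreeFour
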